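import Pool.Agent.V1189.SE.Main
import Pool.Agent.V1189.SB.Final

/-!
# Windows of digits with small periods, for several numbers in coprime bases

Author: helper89.
-/

set_option autoImplicit false

namespace Pool.Agent.V1189.SE

open Finset
open Pool.Agent.V1189.SB (Windows Simple EE EE_window EE_le pieces)

variable {k : ℕ}

/-- the core inequality with uniform constants -/
lemma core' (hk : 1 ≤ k) (b : Fin k → ℕ) (hb : ∀ κ, 2 ≤ b κ)
    (hcop : ∀ κ κ', κ ≠ κ' → Nat.Coprime (b κ) (b κ')) (x : Fin k → ℝ)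
    (hx : ∀ κ, Irrational (x κ)) (J : Finset (Fin k))
    (α : Fin k → Fin k → ℝ) (β : Fin k → ℝ) (hα : ∀ κ ν, IsAlgebraic ℚ (α κ ν))
    (hβ : ∀ κ, IsAlgebraic ℚ (β κ))
    (hrel : ∀ κ, κ ∉ J → x κ = β κ + ∑ ν ∈ J, α κ ν * x ν) (K : ℝ) (hK : 1 ≤ K) (r : ℕ) (ε : ℝ) (hε : 0 < ε) :
    ∃ (G : ℕ) (C : ℝ), ∀ q : Fin k → ℕ, (∀ κ, q κ ≤ r) →
      ∀ (N : ℝ) (s : ∀ κ, Fin (q κ + 1) → ℕ) (y : ∀ κ, Fin (q κ + 1) → ℤ),
      Conf b q x K G N s y →
      ((k : ℝ) - J.card - ε) * N ≤ ∑ κ, ∑ i, Real.log |(y κ i : ℝ)| + C := by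
  classical
  have h1 := fun q : Fin k → ℕ => core hk b hb hcop x hx J α β hα hβ hrel K hK q ε hε
  choose G C h1 using h1
  refine ⟨∑ q ∈ Fintype.piFinset (fun _ : Fin k => range (r + 1)), G q,
    ∑ q ∈ Fintype.piFinset (fun _ : Fin k => range (r + 1)), |C q|, fun q hq N s y hC => ?_⟩
  have hmem : q ∈ Fintype.piFinset (fun _ : Fin k => range (r + 1)) := by
    rw [Fintype.mem_piFinset]
    intro κ
    rw [mem_range]
    have := hq κ
    omega
  have hG : G q ≤ ∑ q ∈ Fintype.piFinset (fun _ : Fin k => range (r + 1)), G q :=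
    Finset.single_le_sum (f := G) (fun _ _ => Nat.zero_le _) hmem
  have hCq : |C q| ≤ ∑ q ∈ Fintype.piFinset (fun _ : Fin k => range (r + 1)), |C q| :=
    Finset.single_le_sum (f := fun q => |C q|) (fun _ _ => abs_nonneg _) hmem
  have h2 := h1 q N s y ⟨hC.appr, hC.le, fun κ i j hij => by
    refine le_trans (mul_le_mul_of_nonneg_left ?_ (abs_nonneg _)) (hC.gap κ i j hij)
    have := hb κ
    exact pow_le_pow_right₀ (by exact_mod_cast (by omega : 1 ≤ b κ)) (by omega), hC.ne⟩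
  linarith [le_abs_self (C q)]

set_option maxHeartbeats 4000000 in
/-- **Windows with small periods in coprime bases.** -/
theorem main (b : Fin k → ℕ) (hb : ∀ κ, 2 ≤ b κ)
    (hcop : ∀ κ κ', κ ≠ κ' → Nat.Coprime (b κ) (b κ')) (x : Fin k → ℝ)
    (hx : ∀ κ, Irrational (x κ)) (J : Finset (Fin k))
    (α : Fin k → Fin k → ℝ) (β : Fin k → ℝ) (hα : ∀ κ ν, IsAlgebraic ℚ (α κ ν))
    (hβ : ∀ κ, IsAlgebraic ℚ (β κ))
    (hrel : ∀ κ, κ ∉ J → x κ = β κ + ∑ ν ∈ J, α κ ν * x ν) (r M : ℕ) (ε : ℝ) (hε : 0 < ε) :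
    ∃ C : ℝ, ∀ N : ℝ, 0 ≤ N → ∀ w l : Fin k → Fin r → ℕ,
      (∀ κ, Windows (w κ) (l κ) ⌊N / Real.log (b κ)⌋₊) → (∀ κ i, Simple (b κ) (x κ) M (w κ i) (l κ i)) →
      ∑ κ, ∑ i, (l κ i : ℝ) * Real.log (b κ) ≤ (J.card + ε) * N + C := by
  classical
  rcases Nat.eq_zero_or_pos k with hk0 | hk
  · subst hk0
    refine ⟨0, fun N hN w l _ _ => ?_⟩
    simp only [Finset.univ_eq_empty, Finset.sum_empty]
    have : (0 : ℝ) ≤ J.card := Nat.cast_nonneg _
    positivity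
  have hbR : ∀ κ, (2 : ℝ) ≤ b κ := fun κ => by exact_mod_cast hb κ
  have hbpos : ∀ κ, (0 : ℝ) < b κ := fun κ => by linarith [hbR κ]
  have hlogb : ∀ κ, 0 < Real.log (b κ) := fun κ => Real.log_pos (by linarith [hbR κ])
  obtain ⟨P, hP⟩ : ∃ P, P = M.factorial := ⟨_, rfl⟩
  have hP0 : 1 ≤ P := by rw [hP]; exact Nat.factorial_pos M
  have hfac : ∀ κ, (1 : ℤ) ≤ (b κ : ℤ) ^ P - 1 := by
    intro κ
    have h1 : (2 : ℤ) ≤ b κ := by exact_mod_cast hb κ
    have h2 : (b κ : ℤ) ^ 1 ≤ (b κ : ℤ) ^ P := pow_le_pow_right₀ (by omega) hP0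
    rw [pow_one] at h2
    omega
  obtain ⟨T, hT⟩ : ∃ T : ℤ, T = ∏ κ, ((b κ : ℤ) ^ P - 1) := ⟨_, rfl⟩
  obtain ⟨c, hc⟩ : ∃ c : Fin k → ℤ, c = fun κ => ∏ ν ∈ univ.erase κ, ((b ν : ℤ) ^ P - 1) := ⟨_, rfl⟩
  have hc1 : ∀ κ, 1 ≤ c κ := fun κ => by
    rw [hc]
    have h1 : (0 : ℤ) < ∏ ν ∈ univ.erase κ, ((b ν : ℤ) ^ P - 1) :=
      Finset.prod_pos fun ν _ => by linarith [hfac ν]
    exact h1
  have hcT : ∀ κ, c κ * ((b κ : ℤ) ^ P - 1) = T := fun κ => by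
    rw [hc, hT]
    simp only
    rw [mul_comm]
    exact Finset.mul_prod_erase univ (fun κ => (b κ : ℤ) ^ P - 1) (mem_univ κ)
  have hcleT : ∀ κ, c κ ≤ T := fun κ => by
    rw [← hcT κ]
    nlinarith [hc1 κ, hfac κ]
  have hT1 : 1 ≤ T := (hc1 ⟨0, hk⟩).trans (hcleT _)
  have hTR : (1 : ℝ) ≤ T := by exact_mod_cast hT1
  have hx' : ∀ κ, Irrational ((T : ℝ) * x κ) := fun κ => (hx κ).intCast_mul (by omega)
  have hrel' : ∀ κ, κ ∉ J → (T : ℝ) * x κ = T * β κ + ∑ ν ∈ J, α κ ν * (T * x ν) := fun κ hκ => by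
    rw [hrel κ hκ, mul_add, Finset.mul_sum]
    congr 1
    exact Finset.sum_congr rfl fun ν _ => by ring
  have hβ' : ∀ κ, IsAlgebraic ℚ ((T : ℝ) * β κ) := fun κ => (isAlgebraic_intCast T).mul (hβ κ)
  obtain ⟨K, hK⟩ : ∃ K : ℝ, K = T * (2 + ∑ κ, (b κ : ℝ)) := ⟨_, rfl⟩
  have hbsum : ∀ κ, (b κ : ℝ) ≤ ∑ κ, (b κ : ℝ) := fun κ =>
    Finset.single_le_sum (f := fun κ => (b κ : ℝ)) (fun κ _ => (hbpos κ).le) (mem_univ κ)
  have hbs0 : 0 ≤ ∑ κ, (b κ : ℝ) := Finset.sum_nonneg fun κ _ => (hbpos κ).le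
  have hK1 : 1 ≤ K := by rw [hK]; nlinarith
  obtain ⟨G, C, hcore⟩ := core' hk b hb hcop (fun κ => (T : ℝ) * x κ) hx' J α
    (fun κ => T * β κ) hα hβ' hrel' K hK1 r ε hε
  refine ⟨C + ∑ κ, ((r : ℝ) * P * Real.log (b κ) + (r : ℝ) * (G * Real.log (b κ)) +
    (r + 1) * Real.log (2 * T + |(T : ℝ) * x κ|)), fun N hN w l hW hS => ?_⟩
  obtain ⟨n, hn⟩ : ∃ n : Fin k → ℕ, n = fun κ => ⌊N / Real.log (b κ)⌋₊ := ⟨_, rfl⟩
  have hnle : ∀ κ, (n κ : ℝ) * Real.log (b κ) ≤ N := by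
    intro κ
    have h1 : (n κ : ℝ) ≤ N / Real.log (b κ) := by
      rw [hn]
      exact Nat.floor_le (div_nonneg hN (hlogb κ).le)
    rwa [le_div_iff₀ (hlogb κ)] at h1
  have hnlt : ∀ κ, N < ((n κ : ℝ) + 1) * Real.log (b κ) := by
    intro κ
    have h1 : N / Real.log (b κ) < (n κ : ℝ) + 1 := by
      rw [hn]
      exact Nat.lt_floor_add_one _
    rwa [div_lt_iff₀ (hlogb κ)] at h1
  have hEE : ∀ κ j, |(T : ℝ) * x κ * (b κ : ℝ) ^ j - EE (b κ) P (c κ) (x κ) j| ≤ T := by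
    intro κ j
    have h1 := EE_le (b κ) P (c κ) (by linarith [hc1 κ]) (x κ) j
    have h2 : (c κ : ℝ) * ((b κ : ℝ) ^ P - 1) = T := by exact_mod_cast hcT κ
    rw [h2] at h1
    exact h1.trans (by exact_mod_cast hcleT κ)
  have hpieces := fun κ => pieces (b κ) (hb κ) ((T : ℝ) * x κ) T hTR (EE (b κ) P (c κ) (x κ)) (hEE κ) G r
    (w κ) (fun i => l κ i - P) (n κ) ⟨fun i j hij => by
      have h9 := (hW κ).1 i j hij
      show w κ i + (l κ i - P) ≤ w κ j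
      omega, fun i => by
      have h9 := (hW κ).2 i
      rw [hn]
      show w κ i + (l κ i - P) ≤ ⌊N / Real.log (b κ)⌋₊
      omega⟩ (fun i => by
      rw [hP]
      exact EE_window (b κ) (hb κ) (x κ) (c κ) M (w κ i) (l κ i) (hS κ i) _ le_rfl)
  choose q s y h1 h2 h3 h4 h5 h6 using hpieces
  have hconf : Conf b q (fun κ => (T : ℝ) * x κ) K G N s y := by
    refine ⟨fun κ => ?_, fun κ i => ?_, fun κ i j hij => ?_, h5⟩
    · have h7 : ∑ i, (y κ i : ℝ) / (b κ : ℝ) ^ s κ i =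
          (EE (b κ) P (c κ) (x κ) (n κ) : ℝ) / (b κ : ℝ) ^ n κ := by
        rw [h2 κ]
        push_cast
        rw [Finset.sum_div]
        refine Finset.sum_congr rfl fun i _ => ?_
        rw [pow_sub₀ _ (hbpos κ).ne' (h3 κ i)]
        have := pow_pos (hbpos κ) (n κ)
        have := pow_pos (hbpos κ) (s κ i)
        field_simp
      have h8 := hEE κ (n κ)
      have hp := pow_pos (hbpos κ) (n κ)
      have h9 : (T : ℝ) * x κ - (EE (b κ) P (c κ) (x κ) (n κ) : ℝ) / (b κ : ℝ) ^ n κ =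
          ((T : ℝ) * x κ * (b κ : ℝ) ^ n κ - EE (b κ) P (c κ) (x κ) (n κ)) / (b κ : ℝ) ^ n κ := by
        field_simp
      rw [h7, h9, abs_div, abs_of_pos hp, div_le_iff₀ hp]
      have h10 : Real.exp N ≤ (b κ : ℝ) * (b κ : ℝ) ^ n κ := by
        rw [← pow_succ', ← Real.exp_log (pow_pos (hbpos κ) (n κ + 1)), Real.log_pow]
        refine Real.exp_le_exp.2 ?_
        have := hnlt κ
        push_cast
        linarith
      have h11 : 1 ≤ Real.exp (-N) * ((b κ : ℝ) * (b κ : ℝ) ^ n κ) := by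
        have h12 : Real.exp (-N) * Real.exp N = 1 := by
          rw [← Real.exp_add, neg_add_cancel, Real.exp_zero]
        rw [← h12]
        exact mul_le_mul_of_nonneg_left h10 (Real.exp_pos _).le
      refine h8.trans ?_
      have h13 : (T : ℝ) * (b κ) ≤ K := by
        rw [hK]
        exact mul_le_mul_of_nonneg_left (by linarith [hbsum κ]) (by linarith)
      calc (T : ℝ) = T * 1 := (mul_one _).symm
        _ ≤ T * (Real.exp (-N) * ((b κ : ℝ) * (b κ : ℝ) ^ n κ)) :=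
          mul_le_mul_of_nonneg_left h11 (by linarith)
        _ = (T * b κ) * (Real.exp (-N) * (b κ : ℝ) ^ n κ) := by ring
        _ ≤ K * (Real.exp (-N) * (b κ : ℝ) ^ n κ) :=
          mul_le_mul_of_nonneg_right h13 (by positivity)
        _ = _ := by ring
    · have h7 : (b κ : ℝ) ^ s κ i ≤ (b κ : ℝ) ^ n κ :=
        pow_le_pow_right₀ (by linarith [hbR κ]) (h3 κ i)
      refine h7.trans ?_
      rw [← Real.exp_log (pow_pos (hbpos κ) (n κ)), Real.log_pow]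
      exact Real.exp_le_exp.2 (hnle κ)
    · refine (h4 κ i j hij).trans (mul_le_mul_of_nonneg_right ?_ (by positivity))
      rw [hK]
      nlinarith
  have h7 := hcore q h1 N s y hconf
  have h8 : ∑ κ, ∑ i, Real.log |(y κ i : ℝ)| ≤ ∑ κ, (N - ∑ i, (l κ i : ℝ) * Real.log (b κ) +
      ((r : ℝ) * P * Real.log (b κ) + (r : ℝ) * (G * Real.log (b κ)) +
        (r + 1) * Real.log (2 * T + |(T : ℝ) * x κ|))) := by
    refine Finset.sum_le_sum fun κ _ => (h6 κ).trans ?_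
    have h9 : ∑ i, (l κ i : ℝ) ≤ ∑ i, ((l κ i - P : ℕ) : ℝ) + (r : ℝ) * P := by
      have h10 : ∑ i : Fin r, (l κ i : ℝ) ≤ ∑ i : Fin r, (((l κ i - P : ℕ) : ℝ) + P) := by
        refine Finset.sum_le_sum fun i _ => ?_
        have : l κ i ≤ (l κ i - P) + P := by omega
        exact_mod_cast this
      rw [Finset.sum_add_distrib, Finset.sum_const, Finset.card_univ, Fintype.card_fin,
        nsmul_eq_mul] at h10
      exact h10
    have h11 := mul_le_mul_of_nonneg_right h9 (hlogb κ).le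
    rw [← Finset.sum_mul]
    have h12 := hnle κ
    nlinarith
  rw [Finset.sum_add_distrib, Finset.sum_sub_distrib, Finset.sum_const, Finset.card_univ,
    Fintype.card_fin, nsmul_eq_mul] at h8
  linarith

end Pool.Agent.V1189.SE
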