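import Pool.Agent.V1189.SE.Core

/-!
# Sums of few terms in several coprime bases: the inequality

Author: helper89.
-/

set_option autoImplicit false

namespace Pool.Agent.V1189.SE

open Finset Filter Topology

variable {k : ℕ}

/-- the index set of all terms -/
abbrev Idx (q : Fin k → ℕ) : Type := (κ : Fin k) × Fin (q κ + 1)

/-- the forms at the real place -/
noncomputable def MM (q : Fin k → ℕ) (J : Finset (Fin k)) (α : Fin k → Fin k → ℝ) (β : Fin k → ℝ) :
    Matrix (Option (Idx q)) (Option (Idx q)) ℝ := fun l j =>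
  match l, j with
  | none, none => 1
  | none, some _ => 0
  | some l, none => if l.2 = 0 ∧ l.1 ∉ J then -β l.1 else 0
  | some l, some j => if l.2 = 0 ∧ l.1 ∉ J then
      (if j.1 = l.1 then 1 else 0) - (if j.1 ∈ J then α l.1 j.1 else 0)
    else if l = j then 1 else 0

lemma MM_none (q : Fin k → ℕ) (J : Finset (Fin k)) (α : Fin k → Fin k → ℝ) (β : Fin k → ℝ)
    (v : Option (Idx q) → ℝ) : ∑ j, MM q J α β none j * v j = v none := by
  rw [Fintype.sum_option]
  simp [MM]

lemma MM_special (q : Fin k → ℕ) (J : Finset (Fin k)) (α : Fin k → Fin k → ℝ) (β : Fin k → ℝ)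
    (κ : Fin k) (h : κ ∉ J) (v : Option (Idx q) → ℝ) :
    ∑ j, MM q J α β (some ⟨κ, 0⟩) j * v j = ∑ i, v (some ⟨κ, i⟩) - β κ * v none -
      ∑ ν ∈ J, α κ ν * ∑ i, v (some ⟨ν, i⟩) := by
  classical
  rw [Fintype.sum_option]
  have h1 : ∀ j : Idx q, MM q J α β (some ⟨κ, 0⟩) (some j) * v (some j) =
      (if j.1 = κ then v (some j) else 0) - (if j.1 ∈ J then α κ j.1 * v (some j) else 0) := by
    intro j
    simp only [MM]
    rw [if_pos ⟨trivial, h⟩]
    split_ifs <;> ring
  have h2 : MM q J α β (some ⟨κ, 0⟩) none * v none = -β κ * v none := by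
    simp only [MM]
    rw [if_pos ⟨trivial, h⟩]
  rw [h2, Finset.sum_congr rfl fun j _ => h1 j, Finset.sum_sub_distrib, Fintype.sum_sigma,
    Fintype.sum_sigma]
  have h3 : ∑ ν : Fin k, ∑ i : Fin (q ν + 1), (if ν = κ then v (some ⟨ν, i⟩) else 0) =
      ∑ i, v (some ⟨κ, i⟩) := by
    rw [Finset.sum_eq_single κ (fun ν _ hν => by simp [hν]) (fun h => absurd (mem_univ _) h)]
    simp
  have h4 : ∑ ν : Fin k, ∑ i : Fin (q ν + 1), (if ν ∈ J then α κ ν * v (some ⟨ν, i⟩) else 0) =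
      ∑ ν ∈ J, α κ ν * ∑ i, v (some ⟨ν, i⟩) := by
    rw [← Finset.sum_subset (Finset.subset_univ J) (fun ν _ hν => by simp [hν])]
    refine Finset.sum_congr rfl fun ν hν => ?_
    rw [Finset.mul_sum]
    exact Finset.sum_congr rfl fun i _ => by rw [if_pos hν]
  rw [h3, h4]
  ring

lemma MM_other (q : Fin k → ℕ) (J : Finset (Fin k)) (α : Fin k → Fin k → ℝ) (β : Fin k → ℝ)
    (l : Idx q) (h : ¬ (l.2 = 0 ∧ l.1 ∉ J)) (v : Option (Idx q) → ℝ) :
    ∑ j, MM q J α β (some l) j * v j = v (some l) := by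
  classical
  rw [Fintype.sum_option]
  simp only [MM, if_neg h]
  simp

lemma MM_det (q : Fin k → ℕ) (J : Finset (Fin k)) (α : Fin k → Fin k → ℝ) (β : Fin k → ℝ) :
    (MM q J α β).det ≠ 0 := by
  classical
  intro h
  obtain ⟨v, hv0, hv⟩ := Matrix.exists_mulVec_eq_zero_iff.2 h
  have h1 : ∀ l, ∑ j, MM q J α β l j * v j = 0 := fun l => congrFun hv l
  have h0 : v none = 0 := by rw [← MM_none q J α β v]; exact h1 none
  have h2 : ∀ l : Idx q, ¬ (l.2 = 0 ∧ l.1 ∉ J) → v (some l) = 0 := fun l hl => by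
    rw [← MM_other q J α β l hl v]
    exact h1 _
  apply hv0
  funext l
  cases l with
  | none => exact h0
  | some l =>
    by_cases hl : l.2 = 0 ∧ l.1 ∉ J
    · obtain ⟨κ, i⟩ := l
      obtain ⟨hi, hκ⟩ := hl
      have hi' : i = (0 : Fin (q κ + 1)) := hi
      subst hi'
      have h3 := h1 (some ⟨κ, 0⟩)
      have h4 : ∑ ν ∈ J, α κ ν * ∑ i, v (some ⟨ν, i⟩) = 0 := by
        refine Finset.sum_eq_zero fun ν hν => ?_
        rw [Finset.sum_eq_zero (s := univ) (f := fun i => v (some ⟨ν, i⟩)) (fun i _ =>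
          h2 ⟨ν, i⟩ (fun h => h.2 hν)), mul_zero]
      rw [MM_special q J α β κ hκ v, Fin.sum_univ_succ,
        Finset.sum_eq_zero (s := univ) (f := fun i : Fin (q κ) => v (some ⟨κ, i.succ⟩)) (fun i _ =>
          h2 ⟨κ, i.succ⟩ (fun h => Fin.succ_ne_zero i h.1)), h4, h0] at h3
      simpa using h3
    · exact h2 l hl

set_option maxHeartbeats 4000000 in
theorem core (hk : 1 ≤ k) (b : Fin k → ℕ) (hb : ∀ κ, 2 ≤ b κ)
    (hcop : ∀ κ κ', κ ≠ κ' → Nat.Coprime (b κ) (b κ')) (x : Fin k → ℝ)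
    (hx : ∀ κ, Irrational (x κ)) (J : Finset (Fin k)) (α : Fin k → Fin k → ℝ) (β : Fin k → ℝ)
    (hα : ∀ κ ν, IsAlgebraic ℚ (α κ ν)) (hβ : ∀ κ, IsAlgebraic ℚ (β κ))
    (hrel : ∀ κ, κ ∉ J → x κ = β κ + ∑ ν ∈ J, α κ ν * x ν) (K : ℝ)
    (hK : 1 ≤ K) (q : Fin k → ℕ) (ε : ℝ) (hε : 0 < ε) :
    ∃ (G : ℕ) (C : ℝ), ∀ (N : ℝ) (s : ∀ κ, Fin (q κ + 1) → ℕ) (y : ∀ κ, Fin (q κ + 1) → ℤ),
      Conf b q x K G N s y →
      ((k : ℝ) - J.card - ε) * N ≤ ∑ κ, ∑ i, Real.log |(y κ i : ℝ)| + C := by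
  classical
  by_contra hcon
  push Not at hcon
  have key : ∀ t : ℕ, ∃ (N : ℝ) (s : ∀ κ, Fin (q κ + 1) → ℕ) (y : ∀ κ, Fin (q κ + 1) → ℤ),
      Conf b q x K t N s y ∧
      ∑ κ, ∑ i, Real.log |(y κ i : ℝ)| + t < ((k : ℝ) - J.card - ε) * N := fun t => hcon t t
  choose N0 s0 y0 hC0 hlt0 using key
  obtain ⟨κ1⟩ : Nonempty (Fin k) := ⟨⟨0, hk⟩⟩
  obtain ⟨ξ, hξ0, hξ⟩ : ∃ ξ : ℝ, 0 < ξ ∧ ∀ κ, ξ ≤ |x κ| := by
    obtain ⟨κ, -, hκ⟩ := Finset.exists_min_image univ (fun κ => |x κ|) ⟨κ1, mem_univ _⟩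
    exact ⟨|x κ|, abs_pos.2 (hx κ).ne_zero, fun ν => hκ ν (mem_univ _)⟩
  obtain ⟨Ξ, hΞ⟩ : ∃ Ξ : ℝ, Ξ = ∑ κ, |x κ| := ⟨_, rfl⟩
  have hΞle : ∀ κ, |x κ| ≤ Ξ := fun κ => by
    rw [hΞ]
    exact Finset.single_le_sum (f := fun κ => |x κ|) (fun _ _ => abs_nonneg _) (mem_univ κ)
  have hΞ0 : 0 ≤ Ξ := (abs_nonneg _).trans (hΞle κ1)
  have hbR : ∀ κ, (2 : ℝ) ≤ b κ := fun κ => by exact_mod_cast hb κ
  have hbpos : ∀ κ, (0 : ℝ) < b κ := fun κ => by linarith [hbR κ]
  have hlogb : ∀ κ, 0 < Real.log (b κ) := fun κ => Real.log_pos (by linarith [hbR κ])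
  have hkR : (1 : ℝ) ≤ k := by exact_mod_cast hk
  have hJ0 : (0 : ℝ) ≤ J.card := Nat.cast_nonneg _
  have hJk : (J.card : ℝ) ≤ k := by
    have := Finset.card_le_univ J
    rw [Fintype.card_fin] at this
    exact_mod_cast this
  have hlogint : ∀ n : ℤ, 0 ≤ Real.log |(n : ℝ)| := by
    intro n
    by_cases hn : n = 0
    · rw [hn]; simp
    · refine Real.log_nonneg ?_
      have : (1 : ℤ) ≤ |n| := Int.one_le_abs hn
      exact_mod_cast this
  have hN0 : ∀ t, 0 ≤ N0 t := by
    intro t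
    have h1 := (hC0 t).le κ1 0
    have h2 : (1 : ℝ) ≤ (b κ1 : ℝ) ^ s0 t κ1 0 := one_le_pow₀ (by linarith [hbR κ1])
    by_contra h
    push Not at h
    have h3 : Real.exp (N0 t) < Real.exp 0 := Real.exp_lt_exp.2 h
    rw [Real.exp_zero] at h3
    linarith
  have hNt : ∀ t : ℕ, (t : ℝ) / k ≤ N0 t := by
    intro t
    rw [div_le_iff₀ (by linarith)]
    have h1 := hlt0 t
    have h2 : 0 ≤ ∑ κ, ∑ i, Real.log |(y0 t κ i : ℝ)| :=
      Finset.sum_nonneg fun κ _ => Finset.sum_nonneg fun i _ => hlogint _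
    nlinarith [hN0 t]
  have hNtend : Tendsto N0 atTop atTop :=
    tendsto_atTop_mono hNt (tendsto_natCast_atTop_atTop.atTop_div_const (by linarith))
  have herr0 : Tendsto (fun t => err q K t (N0 t)) atTop (𝓝 0) := by
    unfold err
    have h1 : Tendsto (fun t => K * Real.exp (-N0 t)) atTop (𝓝 (K * 0)) :=
      (Real.tendsto_exp_atBot.comp (tendsto_neg_atTop_atBot.comp hNtend)).const_mul K
    have h2 : Tendsto (fun t : ℕ => (∑ κ, ((q κ : ℝ) + 1)) * (K * (1 / 2) ^ t)) atTop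
        (𝓝 ((∑ κ, ((q κ : ℝ) + 1)) * (K * 0))) :=
      ((tendsto_pow_atTop_nhds_zero_of_lt_one (by norm_num) (by norm_num)).const_mul K).const_mul _
    have h3 := h1.add h2
    simpa using h3
  -- constants
  obtain ⟨Ka, hKa⟩ : ∃ Ka : ℝ, Ka = K * (1 + ∑ κ, ∑ ν, |α κ ν|) := ⟨_, rfl⟩
  have hαs : 0 ≤ ∑ κ, ∑ ν, |α κ ν| :=
    Finset.sum_nonneg fun _ _ => Finset.sum_nonneg fun _ _ => abs_nonneg _
  have hKa1 : 1 ≤ Ka := by rw [hKa]; nlinarith
  obtain ⟨c0, hc0⟩ : ∃ c0 : ℝ, c0 = Real.log Ka - Real.log (ξ / 2) := ⟨_, rfl⟩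
  obtain ⟨c1, hc1⟩ : ∃ c1 : ℝ, c1 = Real.log (K + 2 * Ξ + ξ + 1) := ⟨_, rfl⟩
  have hc10 : 0 ≤ c1 := by rw [hc1]; exact Real.log_nonneg (by linarith)
  have hlogK : 0 ≤ Real.log Ka := Real.log_nonneg hKa1
  obtain ⟨t0, ht0⟩ : ∃ t0 : ℕ, ∀ t ≥ t0, err q K t (N0 t) ≤ ξ / 2 ∧ 1 ≤ N0 t ∧
      ((k : ℝ) - J.card) * c0 ≤ t := by
    have h1 : ∀ᶠ t in atTop, err q K t (N0 t) ≤ ξ / 2 :=
      (herr0.eventually (gt_mem_nhds (by positivity : 0 < ξ / 2))).mono fun t h => h.le
    have h2 := hNtend.eventually_ge_atTop 1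
    have h3 := (tendsto_natCast_atTop_atTop (R := ℝ)).eventually_ge_atTop (((k : ℝ) - J.card) * c0)
    exact eventually_atTop.1 (h1.and (h2.and h3))
  obtain ⟨N, hN⟩ : ∃ N : ℕ → ℝ, N = fun t => N0 (t + t0) := ⟨_, rfl⟩
  obtain ⟨s, hs⟩ : ∃ s : ℕ → ∀ κ, Fin (q κ + 1) → ℕ, s = fun t => s0 (t + t0) := ⟨_, rfl⟩
  obtain ⟨y, hy⟩ : ∃ y : ℕ → ∀ κ, Fin (q κ + 1) → ℤ, y = fun t => y0 (t + t0) := ⟨_, rfl⟩
  have hC : ∀ t, Conf b q x K (t + t0) (N t) (s t) (y t) := fun t => by
    rw [hN, hs, hy]; exact hC0 (t + t0)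
  have hlt : ∀ t : ℕ, ∑ κ, ∑ i, Real.log |(y t κ i : ℝ)| + ((t + t0 : ℕ) : ℝ) <
      ((k : ℝ) - J.card - ε) * N t := fun t => by
    rw [hN, hy]; exact hlt0 (t + t0)
  have hE : ∀ t : ℕ, err q K (t + t0) (N t) ≤ ξ / 2 := fun t => by
    rw [hN]; exact (ht0 (t + t0) (by omega)).1
  have hN1 : ∀ t, 1 ≤ N t := fun t => by rw [hN]; exact (ht0 (t + t0) (by omega)).2.1
  have hct : ∀ t : ℕ, ((k : ℝ) - J.card) * c0 ≤ ((t + t0 : ℕ) : ℝ) := fun t =>
    (ht0 (t + t0) (by omega)).2.2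
  have hNtend' : Tendsto N atTop atTop := by
    rw [hN]
    exact hNtend.comp (tendsto_add_atTop_nat t0)
  have herr' : Tendsto (fun t : ℕ => err q K (t + t0) (N t)) atTop (𝓝 0) := by
    rw [hN]
    exact herr0.comp (tendsto_add_atTop_nat t0)
  -- the top terms
  have htop : ∀ t κ, ξ / 2 ≤ |tm b (s t) (y t) κ 0| := by
    intro t κ
    have h1 := (hC t).top hb hK κ
    have h2 := hE t
    have h3 : |x κ| ≤ |x κ - tm b (s t) (y t) κ 0| + |tm b (s t) (y t) κ 0| := by
      refine le_trans (le_of_eq ?_) (abs_add_le _ _)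
      congr 1; ring
    have h4 := hξ κ
    push_cast at h1 h2 ⊢
    linarith
  have hyne : ∀ t κ i, y t κ i ≠ 0 := by
    intro t κ i
    by_cases hi : i = 0
    · intro h
      have h1 := htop t κ
      unfold tm at h1
      rw [hi] at h
      rw [h, Int.cast_zero, zero_div, abs_zero] at h1
      linarith
    · exact (hC t).ne κ i hi
  -- the exponents
  obtain ⟨m, hm⟩ : ∃ m : ℕ → Fin k → ℕ, m = fun t κ => univ.sup (s t κ) := ⟨_, rfl⟩
  have hsm : ∀ t κ i, s t κ i ≤ m t κ := fun t κ i => by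
    rw [hm]; exact Finset.le_sup (f := s t κ) (mem_univ i)
  have hmN : ∀ t κ, (m t κ : ℝ) * Real.log (b κ) ≤ N t := by
    intro t κ
    obtain ⟨i, -, hi⟩ := Finset.exists_mem_eq_sup univ ⟨0, mem_univ (0 : Fin (q κ + 1))⟩ (s t κ)
    have h1 := (hC t).le κ i
    have h2 : m t κ = s t κ i := by rw [hm]; exact hi
    rw [h2, ← Real.log_pow, ← Real.log_exp (N t)]
    exact Real.log_le_log (pow_pos (hbpos κ) _) h1
  obtain ⟨B, hB⟩ : ∃ B : ℕ → ℕ, B = fun t => ∏ κ, b κ ^ m t κ := ⟨_, rfl⟩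
  have hBpos' : ∀ t, 0 < B t := fun t => by
    rw [hB]; exact Finset.prod_pos fun κ _ => pow_pos (by have := hb κ; omega) _
  have hBpos : ∀ t, (0 : ℝ) < B t := fun t => by exact_mod_cast hBpos' t
  have hBR : ∀ t, (B t : ℝ) = ∏ κ, (b κ : ℝ) ^ m t κ := fun t => by rw [hB]; push_cast; rfl
  have hlogB : ∀ t, Real.log (B t) = ∑ κ, (m t κ : ℝ) * Real.log (b κ) := by
    intro t
    rw [hBR, Real.log_prod fun κ _ => (pow_pos (hbpos κ) _).ne']
    exact Finset.sum_congr rfl fun κ _ => Real.log_pow _ _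
  have hlogBk : ∀ t, Real.log (B t) ≤ k * N t := by
    intro t
    rw [hlogB]
    refine (Finset.sum_le_sum fun κ _ => hmN t κ).trans ?_
    rw [Finset.sum_const, Finset.card_univ, Fintype.card_fin, nsmul_eq_mul]
  have hlogB0 : ∀ t, 0 ≤ Real.log (B t) := by
    intro t
    rw [hlogB]
    exact Finset.sum_nonneg fun κ _ => mul_nonneg (Nat.cast_nonneg _) (hlogb κ).le
  -- the vectors
  obtain ⟨X, hX⟩ : ∃ X : ℕ → Idx q → ℤ, X = fun t l =>
      y t l.1 l.2 * (b l.1 : ℤ) ^ (m t l.1 - s t l.1 l.2) * cof b (m t) l.1 := ⟨_, rfl⟩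
  obtain ⟨XX, hXX⟩ : ∃ XX : ℕ → Option (Idx q) → ℤ, XX = fun t l =>
      Option.elim l (B t : ℤ) (X t) := ⟨_, rfl⟩
  have hXX0 : ∀ t, XX t none = B t := fun t => by rw [hXX]; rfl
  have hXX1 : ∀ (t : ℕ) (l : Idx q), XX t (some l) = X t l := fun t l => by rw [hXX]; rfl
  have hXB : ∀ (t : ℕ) (l : Idx q), (X t l : ℝ) = B t * tm b (s t) (y t) l.1 l.2 := by
    intro t l
    rw [hX, hBR]
    have h1 : ((cof b (m t) l.1 : ℤ) : ℝ) * (b l.1 : ℝ) ^ m t l.1 = ∏ κ, (b κ : ℝ) ^ m t κ := by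
      have := cof_mul b (m t) l.1
      rw [mul_comm]
      exact_mod_cast this
    simp only
    rw [← h1]
    push_cast
    rw [pow_sub₀ _ (hbpos l.1).ne' (hsm t l.1 l.2)]
    unfold tm
    field_simp
  have htne : ∀ (t : ℕ) (l : Idx q), tm b (s t) (y t) l.1 l.2 ≠ 0 := by
    intro t l
    unfold tm
    exact div_ne_zero (by exact_mod_cast hyne t l.1 l.2) (pow_pos (hbpos _) _).ne'
  have hXne : ∀ (t : ℕ) (l : Idx q), X t l ≠ 0 := by
    intro t l h
    have h1 := hXB t l
    rw [h, Int.cast_zero] at h1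
    exact (mul_ne_zero (hBpos t).ne' (htne t l)) h1.symm
  have hlogX : ∀ (t : ℕ) (l : Idx q), Real.log |(X t l : ℝ)| =
      Real.log |(y t l.1 l.2 : ℝ)| + (Real.log (B t) - s t l.1 l.2 * Real.log (b l.1)) := by
    intro t l
    rw [hXB, abs_mul, abs_of_pos (hBpos t), Real.log_mul (hBpos t).ne' (abs_ne_zero.2 (htne t l))]
    unfold tm
    rw [abs_div, abs_of_pos (pow_pos (hbpos l.1) _), Real.log_div
      (abs_ne_zero.2 (by exact_mod_cast hyne t l.1 l.2)) (pow_pos (hbpos _) _).ne', Real.log_pow]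
    ring
  have htle : ∀ (t : ℕ) (l : Idx q), |tm b (s t) (y t) l.1 l.2| ≤ K + 2 * Ξ + ξ + 1 := by
    intro t l
    by_cases hi : l.2 = 0
    · rw [hi]
      have h1 := (hC t).top hb hK l.1
      have h2 := hE t
      have h3 : |tm b (s t) (y t) l.1 0| ≤ |x l.1 - tm b (s t) (y t) l.1 0| + |x l.1| := by
        have h4 : tm b (s t) (y t) l.1 0 = -(x l.1 - tm b (s t) (y t) l.1 0) + x l.1 := by ring
        calc |tm b (s t) (y t) l.1 0| = |-(x l.1 - tm b (s t) (y t) l.1 0) + x l.1| := by rw [← h4]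
          _ ≤ _ := by
            refine (abs_add_le _ _).trans ?_
            rw [abs_neg]
      have h5 := hΞle l.1
      push_cast at h1 h2
      linarith
    · refine ((hC t).small1 hb hK l.1 l.2 hi).trans ?_
      have h1 : ((1 : ℝ) / 2) ^ (t + t0) ≤ 1 := pow_le_one₀ (by norm_num) (by norm_num)
      have h2 : K * (1 / 2) ^ (t + t0) ≤ K * 1 := mul_le_mul_of_nonneg_left h1 (by linarith)
      linarith
  have hlogXle : ∀ (t : ℕ) (l : Idx q), Real.log |(X t l : ℝ)| ≤ k * N t + c1 := by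
    intro t l
    rw [hXB, abs_mul, abs_of_pos (hBpos t), Real.log_mul (hBpos t).ne' (abs_ne_zero.2 (htne t l))]
    have h1 : Real.log |tm b (s t) (y t) l.1 l.2| ≤ c1 := by
      rw [hc1]
      exact Real.log_le_log (abs_pos.2 (htne t l)) (htle t l)
    linarith [hlogBk t]
  -- the sizes
  obtain ⟨A, hA⟩ : ∃ A : ℕ → Idx q → ℝ, A = fun t l =>
      if l.2 = 0 ∧ l.1 ∉ J then Ka * Real.exp (-N t) * B t else |(X t l : ℝ)| := ⟨_, rfl⟩
  obtain ⟨AA, hAA⟩ : ∃ AA : ℕ → Option (Idx q) → ℝ, AA = fun t l =>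
      Option.elim l (B t : ℝ) (A t) := ⟨_, rfl⟩
  have hAA0 : ∀ t, AA t none = B t := fun t => by rw [hAA]; rfl
  have hAA1 : ∀ (t : ℕ) (l : Idx q), AA t (some l) = A t l := fun t l => by rw [hAA]; rfl
  obtain ⟨e, he⟩ : ∃ e : ℕ → Fin k → Idx q → ℕ, e = fun t v l =>
      if v = l.1 then m t v - s t l.1 l.2 else m t v := ⟨_, rfl⟩
  obtain ⟨ee, hee⟩ : ∃ ee : ℕ → Fin k → Option (Idx q) → ℕ, ee = fun t v l =>
      Option.elim l (m t v) (e t v) := ⟨_, rfl⟩
  obtain ⟨D, hD⟩ : ∃ D : ℕ → Option (Idx q) → ℕ, D = fun t l => ∏ v, b v ^ ee t v l := ⟨_, rfl⟩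
  have hD0 : ∀ t, D t none = B t := fun t => by rw [hD, hee, hB]; rfl
  have hDp : ∀ t l, 0 < D t l := fun t l => by
    rw [hD]; exact Finset.prod_pos fun κ _ => pow_pos (by have := hb κ; omega) _
  have hlogD : ∀ (t : ℕ) (l : Idx q), Real.log (D t (some l)) =
      Real.log (B t) - s t l.1 l.2 * Real.log (b l.1) := by
    intro t l
    have h0 : (D t (some l) : ℝ) = ∏ v, (b v : ℝ) ^ e t v l := by
      rw [hD, hee]; push_cast; rfl
    rw [h0, Real.log_prod fun κ _ => (pow_pos (hbpos κ) _).ne']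
    simp_rw [Real.log_pow]
    rw [hlogB, eq_sub_iff_add_eq, ← Finset.add_sum_erase univ _ (mem_univ l.1),
      ← Finset.add_sum_erase univ (fun κ => (m t κ : ℝ) * Real.log (b κ)) (mem_univ l.1)]
    have h1 : (e t l.1 l : ℝ) = m t l.1 - s t l.1 l.2 := by
      rw [he]
      simp only [if_true]
      rw [Nat.cast_sub (hsm t l.1 l.2)]
    have h2 : ∑ v ∈ univ.erase l.1, (e t v l : ℝ) * Real.log (b v) =
        ∑ v ∈ univ.erase l.1, (m t v : ℝ) * Real.log (b v) := by
      refine Finset.sum_congr rfl fun v hv => ?_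
      rw [he]
      simp only [if_neg (Finset.ne_of_mem_erase hv)]
    rw [h1, h2]
    ring
  have hsl : ∀ (t : ℕ) (l : Idx q), (s t l.1 l.2 : ℝ) * Real.log (b l.1) ≤ Real.log (B t) := by
    intro t l
    have h1 : Real.log (D t (some l)) = _ := hlogD t l
    have h2 : 0 ≤ Real.log (D t (some l)) := Real.log_natCast_nonneg _
    linarith
  have hApos : ∀ (t : ℕ) (l : Idx q), 0 < A t l := by
    intro t l
    rw [hA]
    simp only
    split_ifs
    · have := hBpos t
      positivity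
    · exact abs_pos.2 (by exact_mod_cast hXne t l)
  have hlogA : ∀ (t : ℕ) (l : Idx q), Real.log (A t l) ≤ Real.log |(X t l : ℝ)| +
      if l.2 = 0 ∧ l.1 ∉ J then c0 - N t else 0 := by
    intro t l
    rw [hA]
    simp only
    split_ifs with hl
    · rw [Real.log_mul (by positivity) (hBpos t).ne', Real.log_mul (by positivity)
        (Real.exp_pos _).ne', Real.log_exp, hXB, abs_mul, abs_of_pos (hBpos t),
        Real.log_mul (hBpos t).ne' (abs_ne_zero.2 (htne t l))]
      have h1 : Real.log (ξ / 2) ≤ Real.log |tm b (s t) (y t) l.1 l.2| := by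
        refine Real.log_le_log (by positivity) ?_
        rw [hl.1]
        exact htop t l.1
      linarith
    · linarith
  have hspecial : ∀ z : ℝ, ∑ l : Idx q, (if l.2 = 0 ∧ l.1 ∉ J then z else 0) =
      ((k : ℝ) - J.card) * z := by
    intro z
    rw [Fintype.sum_sigma]
    have h1 : ∀ κ : Fin k, ∑ i : Fin (q κ + 1), (if i = 0 ∧ κ ∉ J then z else 0) =
        z - if κ ∈ J then z else 0 := by
      intro κ
      rw [Finset.sum_eq_single 0 (fun i _ hi => by simp [hi]) (fun h => absurd (mem_univ _) h)]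
      by_cases hκ : κ ∈ J
      · simp [hκ]
      · simp [hκ]
    rw [Finset.sum_congr rfl fun κ _ => h1 κ, Finset.sum_sub_distrib, Finset.sum_const,
      Finset.card_univ, Fintype.card_fin, nsmul_eq_mul, Finset.sum_ite_mem, Finset.univ_inter,
      Finset.sum_const, nsmul_eq_mul]
    ring
  have hcard : (0 : ℝ) ≤ Fintype.card (Idx q) := Nat.cast_nonneg _
  obtain ⟨c, hc0', hcf⟩ := Pool.Agent.V1189.RT.subQ (MM q J α β) (fun i j => by
      unfold MM
      split
      · exact isAlgebraic_one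
      · exact isAlgebraic_zero
      · split_ifs
        · exact (hβ _).neg
        · exact isAlgebraic_zero
      · split_ifs
        · exact isAlgebraic_one.sub (hα _ _)
        · exact isAlgebraic_one.sub isAlgebraic_zero
        · exact isAlgebraic_zero.sub (hα _ _)
        · exact isAlgebraic_zero.sub isAlgebraic_zero
        · exact isAlgebraic_one
        · exact isAlgebraic_zero) (MM_det q J α β)
    (1 : Matrix (Option (Idx q)) (Option (Idx q)) ℤ)
    (by rw [Matrix.det_one]; exact one_ne_zero) k b (fun v => by have := hb v; omega)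
    ((Fintype.card (Idx q) + 2) * (k + 1) + Real.log Ka + c1) ε (by nlinarith) hε N hNtend' ee D
    (fun t l => by rw [hD]) AA (fun t l => by
      cases l with
      | none => rw [hAA0]; exact hBpos t
      | some l => rw [hAA1]; exact hApos t l) (fun t l => by
      have hNt1 := hN1 t
      have hcN : 0 ≤ (Fintype.card (Idx q) : ℝ) * (k + 1) * N t := by positivity
      have hkN : 0 ≤ (k : ℝ) * N t := by positivity
      cases l with
      | none =>
        rw [hAA0, abs_of_nonneg (hlogB0 t)]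
        have := hlogBk t
        nlinarith
      | some l =>
        rw [hAA1, abs_le]
        have h1 : |Real.log (Ka * Real.exp (-N t) * B t)| ≤ Real.log Ka + N t + k * N t := by
          rw [Real.log_mul (by positivity) (hBpos t).ne', Real.log_mul (by positivity)
            (Real.exp_pos _).ne', Real.log_exp, abs_le]
          constructor <;> linarith [hlogBk t, hlogB0 t]
        rw [hA]
        simp only
        split_ifs
        · rw [abs_le] at h1
          constructor <;> nlinarith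
        · have h2 : 0 ≤ Real.log |(X t l : ℝ)| := hlogint _
          have h3 := hlogXle t l
          constructor <;> nlinarith) (fun t => by
      have hNt1 := hN1 t
      rw [Fintype.sum_option, hD0]
      have h1 : ∑ l : Idx q, Real.log (D t (some l)) ≤ ∑ _l : Idx q, (k : ℝ) * N t := by
        refine Finset.sum_le_sum fun l _ => ?_
        rw [hlogD]
        have h2 := hlogBk t
        have h3 : 0 ≤ (s t l.1 l.2 : ℝ) * Real.log (b l.1) :=
          mul_nonneg (Nat.cast_nonneg _) (hlogb _).le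
        linarith
      rw [Finset.sum_const, Finset.card_univ, nsmul_eq_mul] at h1
      have h2 := hlogBk t
      have hkN : 0 ≤ (k : ℝ) * N t := by positivity
      have h4 : 0 ≤ (Fintype.card (Idx q) : ℝ) * N t := by positivity
      nlinarith) (fun t => by
      rw [Fintype.sum_option, Fintype.sum_option, hAA0, hD0]
      simp only [hAA1]
      have h1 : ∑ l, Real.log (A t l) ≤ ∑ l : Idx q, Real.log |(X t l : ℝ)| +
            ((k : ℝ) - J.card) * (c0 - N t) := by
        rw [← hspecial, ← Finset.sum_add_distrib]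
        exact Finset.sum_le_sum fun l _ => hlogA t l
      have h2 : ∑ l : Idx q, Real.log |(X t l : ℝ)| = ∑ κ, ∑ i, Real.log |(y t κ i : ℝ)| +
          ∑ l : Idx q, (Real.log (B t) - s t l.1 l.2 * Real.log (b l.1)) := by
        rw [Finset.sum_congr rfl fun l _ => hlogX t l, Finset.sum_add_distrib,
          Fintype.sum_sigma (f := fun l : Idx q => Real.log |(y t l.1 l.2 : ℝ)|)]
      have h3 : ∑ l : Idx q, Real.log (D t (some l)) =
          ∑ l : Idx q, (Real.log (B t) - s t l.1 l.2 * Real.log (b l.1)) :=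
        Finset.sum_congr rfl fun l _ => hlogD t l
      rw [h3]
      have h4 := hlt t
      have h5 := hct t
      nlinarith) XX (fun t h => by
      have h1 := congrFun h none
      rw [hXX0] at h1
      have h2 := hBpos' t
      simp at h1
      omega) (fun t l => by
      rw [Matrix.one_mulVec]
      cases l with
      | none => rw [hD0, hXX0]
      | some l =>
        rw [hXX1]
        have h1 : (D t (some l) : ℤ) = (b l.1 : ℤ) ^ (m t l.1 - s t l.1 l.2) * cof b (m t) l.1 := by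
          rw [hD, hee]
          push_cast
          simp only [Option.elim]
          rw [← Finset.mul_prod_erase univ _ (mem_univ l.1)]
          congr 1
          · rw [he]
            simp only [if_true]
          · unfold cof
            refine Finset.prod_congr rfl fun v hv => ?_
            rw [he]
            simp only [if_neg (Finset.ne_of_mem_erase hv)]
        rw [h1, hX]
        exact ⟨y t l.1 l.2, by ring⟩) (fun t l => by
      cases l with
      | none =>
        rw [MM_none q J α β (fun j => ((XX t j : ℤ) : ℝ)), hXX0, hAA0]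
        rw [Int.cast_natCast, abs_of_pos (hBpos t)]
      | some l =>
        by_cases hl : l.2 = 0 ∧ l.1 ∉ J
        · obtain ⟨κ, i⟩ := l
          obtain ⟨hi, hκ⟩ := hl
          have hi' : i = (0 : Fin (q κ + 1)) := hi
          subst hi'
          rw [MM_special q J α β κ hκ (fun j => ((XX t j : ℤ) : ℝ)), hAA1, hA]
          simp only
          rw [if_pos ⟨trivial, hκ⟩]
          simp only [hXX1, hXX0, hXB, Int.cast_natCast]
          have h6 : ∀ ν, |x ν - ∑ i, tm b (s t) (y t) ν i| ≤ K * Real.exp (-N t) := fun ν =>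
            (hC t).appr ν
          have h7 : ∑ i, (B t : ℝ) * tm b (s t) (y t) κ i - β κ * B t -
              ∑ ν ∈ J, α κ ν * ∑ i, (B t : ℝ) * tm b (s t) (y t) ν i =
              B t * (-(x κ - ∑ i, tm b (s t) (y t) κ i) +
                ∑ ν ∈ J, α κ ν * (x ν - ∑ i, tm b (s t) (y t) ν i)) := by
            simp_rw [← Finset.mul_sum, mul_sub, Finset.sum_sub_distrib]
            rw [hrel κ hκ]
            have h8 : ∑ ν ∈ J, α κ ν * ((B t : ℝ) * ∑ i, tm b (s t) (y t) ν i) =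
                B t * ∑ ν ∈ J, α κ ν * ∑ i, tm b (s t) (y t) ν i := by
              rw [Finset.mul_sum]
              exact Finset.sum_congr rfl fun ν _ => by ring
            rw [h8]
            ring
          rw [h7, abs_mul, abs_of_pos (hBpos t)]
          have h8 : |-(x κ - ∑ i, tm b (s t) (y t) κ i) +
              ∑ ν ∈ J, α κ ν * (x ν - ∑ i, tm b (s t) (y t) ν i)| ≤ Ka * Real.exp (-N t) := by
            refine (abs_add_le _ _).trans ?_
            rw [abs_neg]
            have h9 : |∑ ν ∈ J, α κ ν * (x ν - ∑ i, tm b (s t) (y t) ν i)| ≤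
                (∑ κ, ∑ ν, |α κ ν|) * (K * Real.exp (-N t)) := by
              refine (Finset.abs_sum_le_sum_abs _ _).trans ?_
              have h10 : ∑ ν ∈ J, |α κ ν * (x ν - ∑ i, tm b (s t) (y t) ν i)| ≤
                  ∑ ν ∈ J, |α κ ν| * (K * Real.exp (-N t)) := by
                refine Finset.sum_le_sum fun ν _ => ?_
                rw [abs_mul]
                exact mul_le_mul_of_nonneg_left (h6 ν) (abs_nonneg _)
              refine h10.trans ?_
              rw [← Finset.sum_mul]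
              refine mul_le_mul_of_nonneg_right ?_ (by positivity)
              refine (Finset.sum_le_sum_of_subset_of_nonneg (Finset.subset_univ J)
                (fun _ _ _ => abs_nonneg _)).trans ?_
              exact Finset.single_le_sum (f := fun κ => ∑ ν, |α κ ν|)
                (fun _ _ => Finset.sum_nonneg fun _ _ => abs_nonneg _) (mem_univ κ)
            have h10 := h6 κ
            rw [hKa]
            linarith
          calc (B t : ℝ) * _ ≤ B t * (Ka * Real.exp (-N t)) :=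
                mul_le_mul_of_nonneg_left h8 (hBpos t).le
            _ = _ := by ring
        · rw [MM_other q J α β l hl (fun j => ((XX t j : ℤ) : ℝ)), hXX1, hAA1, hA]
          simp only
          rw [if_neg hl])
  -- the relation
  have hex : ∃ κ, ∃ i, c (some ⟨κ, i⟩) ≠ 0 := by
    by_contra h
    push Not at h
    obtain ⟨t, ht⟩ := hcf.exists
    rw [Fintype.sum_option, hXX0, Fintype.sum_sigma, Finset.sum_eq_zero (fun κ _ =>
      Finset.sum_eq_zero fun i _ => by rw [h κ i, zero_mul]), add_zero] at ht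
    apply hc0'
    funext l
    cases l with
    | none =>
      rcases mul_eq_zero.1 ht with h1 | h1
      · exact h1
      · have := hBpos' t
        omega
    | some l => exact h l.1 l.2
  obtain ⟨κ, hκ⟩ := hex
  obtain ⟨δ, hδ, hno⟩ := norel b q hb hK (fun κ i => c (some ⟨κ, i⟩)) κ (hx κ) hκ
  have h1 := (hcf.and_eventually (herr'.eventually (gt_mem_nhds hδ))).exists
  obtain ⟨t, ht1, ht2⟩ := h1
  obtain ⟨z, hz⟩ := integral b q hcop (s t) (y t) (m t) hb (hsm t) (fun κ i => c (some ⟨κ, i⟩))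
    (c none) (by
      rw [← ht1, Fintype.sum_option, hXX0, Fintype.sum_sigma, add_comm]
      congr 1
      · rw [hB]
        push_cast
        rfl
      · refine Finset.sum_congr rfl fun κ _ => Finset.sum_congr rfl fun i _ => ?_
        rw [hXX1, hX]) κ
  exact hno (t + t0) (N t) (s t) (y t) (hC t) ht2 z hz

end Pool.Agent.V1189.SE
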